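import Pool.Agent.Y874.StB.Core

/-!
# The weight three equation `t t x t⁻¹ u = 1`: the product identity and the deletion argument

Uses the word `aw` and the deletion lemma of `Helper158.Stall` and the list of eight letters of
`Y874.StB`.
-/

set_option autoImplicit false

namespace Pool.Agent.Y870.KV

open FreeGroup hiding map_mul map_inv map_one
open Pool.Agent.Helper158.Stall
open Pool.Agent.Y874.StB (LO LO8 D8 LO_length LO_sum prod_filter)

/-- `1` is in the product of the conjugacy classes of `g_1, ..., g_r` -/
def OIP {A : Type*} [Group A] {r : ℕ} (g : Fin r → A) : Prop :=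
  ∃ x : Fin r → A, (List.ofFn (fun i => x i * g i * (x i)⁻¹)).prod = 1

theorem oip_iff {A : Type*} [Group A] {r : ℕ} (g : Fin r → A) :
    OIP g ↔ ∃ T : List (A × A), T.map Prod.snd = List.ofFn g ∧
      (T.map fun p => p.1 * p.2 * p.1⁻¹).prod = 1 := by
  constructor
  · rintro ⟨c, hc⟩
    refine ⟨List.ofFn fun i => (c i, g i), ?_, ?_⟩
    · rw [List.map_ofFn]; rfl
    · rw [List.map_ofFn]; exact hc
  · rintro ⟨T, hT, ha⟩
    have hlen : T.length = r := by
      have := congrArg List.length hT
      simpa using this
    subst hlen
    have hg : g = fun i => (T.get i).2 := by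
      apply List.ofFn_injective
      rw [← hT]
      conv_lhs => rw [← List.ofFn_get T]
      rw [List.map_ofFn]
      rfl
    subst hg
    refine ⟨fun i => (T.get i).1, ?_⟩
    rw [← ha]
    conv_rhs => rw [← List.ofFn_get T]
    rw [List.map_ofFn]
    rfl

/-! ### the identity in a group with `t t x t⁻¹ u = 1` -/

section ident

variable {H : Type*} [Group H] (X U T : H)

/-- `b ↦ X`, `c ↦ U`, `t ↦ T` -/
def th : FreeGroup (Fin 3) →* H := FreeGroup.lift ![X, U, T]

/-- `b ↦ X`, `c ↦ U` -/
def ps : FreeGroup (Fin 2) →* H := FreeGroup.lift ![X, U]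

variable {X U T}

theorem th_W (h : T * T * X * T⁻¹ * U = 1) : th X U T (mk W) = 1 := by
  rw [W_eq]
  simp only [map_mul, map_inv, th, FreeGroup.lift_apply_of, Matrix.cons_val_zero,
    Matrix.cons_val_one, Matrix.cons_val]
  exact h

theorem th_emb_one (x : Fin 2 × Bool) : th X U T (mk (emb [x])) = ps X U (mk [x]) := by
  obtain ⟨a, b⟩ := x
  have key : th X U T (mk [(a.castSucc, true)]) = ps X U (mk [(a, true)]) := by
    show th X U T (of a.castSucc) = ps X U (of a)
    rw [th, ps, FreeGroup.lift_apply_of, FreeGroup.lift_apply_of]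
    fin_cases a <;> rfl
  cases b with
  | true => exact key
  | false =>
    have h1 : (mk [(a.castSucc, false)] : FreeGroup (Fin 3)) = (mk [(a.castSucc, true)])⁻¹ := by
      rw [inv_mk]; rfl
    have h2 : (mk [(a, false)] : FreeGroup (Fin 2)) = (mk [(a, true)])⁻¹ := by
      rw [inv_mk]; rfl
    show th X U T (mk [(a.castSucc, false)]) = ps X U (mk [(a, false)])
    rw [h1, h2, map_inv, map_inv, key]

theorem th_emb (L : List (Fin 2 × Bool)) : th X U T (mk (emb L)) = ps X U (mk L) := by
  induction L with
  | nil => exact (map_one (th X U T)).trans (map_one (ps X U)).symm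
  | cons x L ih =>
    have h1 : (mk (emb (x :: L)) : FreeGroup (Fin 3)) = mk (emb [x]) * mk (emb L) := by
      rw [mul_mk]; rfl
    rw [h1, mk_cons, map_mul, map_mul, ih, th_emb_one]

theorem th_item (h : T * T * X * T⁻¹ * U = 1) (o : Option (Fin 2 × Bool) × Bool) :
    th X U T (mk (item o)) = ps X U (mk (optW o.1)) := by
  obtain ⟨o, s⟩ := o
  cases o with
  | some x => exact th_emb_one x
  | none =>
    have h1 : ps X U (mk (optW none)) = 1 := map_one (ps X U)
    cases s with
    | true => exact (th_W h).trans h1.symm
    | false =>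
      have : (mk (invRev W) : FreeGroup (Fin 3)) = (mk W)⁻¹ := by rw [inv_mk]
      show th X U T (mk (invRev W)) = _
      rw [this, map_inv, th_W h, inv_one]
      exact h1.symm

/-- the word `aw` is a product of conjugates of eight letters -/
theorem ident8 (h : T * T * X * T⁻¹ * U = 1) :
    ps X U (mk aw) = (D8.map (fun p => th X U T (mk p.2) * ps X U (mk (optW p.1.1)) *
      (th X U T (mk p.2))⁻¹)).prod := by
  rw [← th_emb (T := T), identity, map_list_prod, List.map_map, D8, prod_filter]
  · congr 1
    apply List.map_congr_left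
    intro p _
    show th X U T (mk p.2 * mk (item p.1) * (mk p.2)⁻¹) = _
    rw [map_mul, map_mul, map_inv, th_item h]
  · intro x _ hx
    have hn : x.1.1 = none := by simpa using hx
    rw [hn]
    have h1 : ps X U (mk (optW none)) = 1 := map_one (ps X U)
    rw [h1]
    simp

end ident

/-! ### the elements -/

/-- the `9 + s` elements: the inverse of the word `aw`, eight letters and `s` trivial elements -/
def el {G : Type*} [Group G] (x u : G) (s : ℕ) : List G :=
  (ps x u (mk aw))⁻¹ :: (LO s).map (fun o => ps x u (mk (optW o)))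

theorem el_length {G : Type*} [Group G] (x u : G) (s : ℕ) : (el x u s).length = 9 + s := by
  rw [el, List.length_cons, List.length_map, LO_length]
  omega

theorem ps_comp {G H : Type*} [Group G] [Group H] (f : G →* H) (x u : G) (z : FreeGroup (Fin 2)) :
    f (ps x u z) = ps (f x) (f u) z := by
  have : (f.comp (ps x u)) = ps (f x) (f u) := by
    apply FreeGroup.ext_hom
    intro i
    show f (ps x u (of i)) = ps (f x) (f u) (of i)
    rw [ps, ps, FreeGroup.lift_apply_of, FreeGroup.lift_apply_of]
    fin_cases i <;> rfl
  exact DFunLike.congr_fun this z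

theorem in_H {H : Type*} [Group H] {X U T : H} (h : T * T * X * T⁻¹ * U = 1) (s : ℕ) :
    ∃ L : List (H × H), L.map Prod.snd = el X U s ∧
      (L.map fun p => p.1 * p.2 * p.1⁻¹).prod = 1 := by
  refine ⟨(1, (ps X U (mk aw))⁻¹) :: (D8.map (fun p => (th X U T (mk p.2),
    ps X U (mk (optW p.1.1)))) ++ List.replicate s (1, 1)), ?_, ?_⟩
  · rw [List.map_cons, el, List.map_append, List.map_map, List.map_replicate, LO, List.map_append,
      List.map_replicate, LO8, List.map_map]
    have h1 : ps X U (mk (optW none)) = 1 := map_one (ps X U)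
    rw [h1]
    rfl
  · rw [List.map_cons, List.prod_cons, List.map_append, List.prod_append, List.map_map,
      List.map_replicate, List.prod_replicate]
    have h2 : (D8.map ((fun p : H × H => p.1 * p.2 * p.1⁻¹) ∘ fun p => (th X U T (mk p.2),
        ps X U (mk (optW p.1.1))))).prod = ps X U (mk aw) := by
      rw [ident8 h]
      rfl
    rw [h2]
    simp

/-- the deletion argument: the product is not trivial in a group with a homomorphism to the free
group which sends `x`, `u` to the generators -/
theorem not_in_G {G : Type*} [Group G] (ρ : G →* FreeGroup (Fin 2)) {x u : G} (hx : ρ x = of 0)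
    (hu : ρ u = of 1) (s : ℕ) (L : List (G × G)) (h1 : L.map Prod.snd = el x u s)
    (h2 : (L.map fun p => p.1 * p.2 * p.1⁻¹).prod = 1) : False := by
  have hρ : ∀ z : FreeGroup (Fin 2), ρ (ps x u z) = z := by
    intro z
    rw [ps_comp, hx, hu]
    have : ps (of 0 : FreeGroup (Fin 2)) (of 1) = MonoidHom.id _ := by
      apply FreeGroup.ext_hom
      intro i
      show ps (of 0 : FreeGroup (Fin 2)) (of 1) (of i) = of i
      rw [ps, FreeGroup.lift_apply_of]
      fin_cases i <;> rfl
    exact DFunLike.congr_fun this z
  cases L with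
  | nil => simp [el] at h1
  | cons p L =>
    rw [List.map_cons, el, List.cons.injEq] at h1
    obtain ⟨e1, e2⟩ := h1
    rw [List.map_cons, List.prod_cons, e1] at h2
    set c := ρ p.1 with hc
    -- the conjugated list in the free group
    obtain ⟨T', f1, f2⟩ : ∃ T' : List (FreeGroup (Fin 2) × Option (Fin 2 × Bool)),
        T'.map Prod.snd = LO s ∧
          (T'.map (fun p => p.1 * mk (optW p.2) * p.1⁻¹)).prod =
            c⁻¹ * ρ (L.map fun p => p.1 * p.2 * p.1⁻¹).prod * c := by
      clear h2
      generalize LO s = M at e2
      induction L generalizing M with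
      | nil =>
        cases M with
        | nil => exact ⟨[], rfl, by simp⟩
        | cons o M => simp at e2
      | cons q L ih =>
        cases M with
        | nil => simp at e2
        | cons o M =>
          rw [List.map_cons, List.map_cons, List.cons.injEq] at e2
          obtain ⟨T', g1, g2⟩ := ih M e2.2
          refine ⟨(c⁻¹ * ρ q.1, o) :: T', by simp [g1], ?_⟩
          rw [List.map_cons, List.prod_cons, g2, List.map_cons, List.prod_cons, map_mul, map_mul,
            map_mul, map_inv, e2.1, hρ]
          group
    have h3 : mk aw = (T'.map (fun p => p.1 * mk (optW p.2) * p.1⁻¹)).prod := by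
      rw [f2]
      have h4 := congrArg ρ h2
      rw [map_mul, map_mul, map_mul, map_inv, map_inv, hρ, ← hc, map_one] at h4
      have h5 : ρ (L.map fun p => p.1 * p.2 * p.1⁻¹).prod = c * mk aw * c⁻¹ := by
        have := eq_inv_of_mul_eq_one_right h4
        rw [this]
        group
      rw [h5]
      group
    have h4 := deletion T' h3
    have h5 : (T'.map (fun p => optM p.2)).sum = (P0 : Multiset (Fin 2 × Bool)) := by
      have e3 : T'.map (fun p => optM p.2) = (T'.map Prod.snd).map optM := by
        rw [List.map_map]; rfl
      rw [e3, f1, LO_sum]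
    rw [h5] at h4
    exact not_good h4

end Pool.Agent.Y870.KV
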