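import Pool.Agent.Y870.KV.Core
import Mathlib.GroupTheory.PushoutI

/-!
# The weight three equation: embedding in an amalgam
-/

set_option autoImplicit false

namespace Pool.Agent.Y870.KV

open Pool.Agent.Helper158.Stall (Rel)
open Pool.Agent.Y874.StB (uel κ rel_φ)

/-- the free group of rank two on `x`, `u` in the free group of rank two on `x`, `t` -/
def ta : FreeGroup (Fin 2) →* FreeGroup (Fin 2) := Pool.Agent.Y874.StB.φ 0

theorem ta_zero : ta (FreeGroup.of 0) = FreeGroup.of 0 := by
  rw [ta, Pool.Agent.Y874.StB.φ, FreeGroup.lift_apply_of]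
  rfl

theorem ta_one : ta (FreeGroup.of 1) = FreeGroup.of 1 * (FreeGroup.of 0)⁻¹ * (FreeGroup.of 1)⁻¹ *
    (FreeGroup.of 1)⁻¹ := by
  rw [ta, Pool.Agent.Y874.StB.φ, FreeGroup.lift_apply_of]
  rfl

theorem ta_inj : Function.Injective ta := by
  rw [injective_iff_map_eq_one]
  intro z hz
  have h1 : Rel (κ 0 (Pool.Agent.Y874.StB.φ 0 z)) z := rel_φ 0 z
  have h2 : Pool.Agent.Y874.StB.φ 0 z = 1 := hz
  rw [h2, map_one] at h1
  exact Rel.unique h1 Rel.one

theorem ps_inj {G : Type*} [Group G] (ρ : G →* FreeGroup (Fin 2)) {x u : G}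
    (hx : ρ x = FreeGroup.of 0) (hu : ρ u = FreeGroup.of 1) : Function.Injective (ps x u) := by
  have hρ : ∀ z : FreeGroup (Fin 2), ρ (ps x u z) = z := by
    intro z
    rw [ps_comp, hx, hu]
    have : ps (FreeGroup.of 0 : FreeGroup (Fin 2)) (FreeGroup.of 1) = MonoidHom.id _ := by
      apply FreeGroup.ext_hom
      intro i
      show ps (FreeGroup.of 0 : FreeGroup (Fin 2)) (FreeGroup.of 1) (FreeGroup.of i) =
        FreeGroup.of i
      rw [ps, FreeGroup.lift_apply_of]
      fin_cases i <;> rfl
    exact DFunLike.congr_fun this z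
  intro a b h
  rw [← hρ a, ← hρ b, h]

/-- the two factors of the amalgam -/
def Fam (G : Type) : Bool → Type
  | true => G
  | false => FreeGroup (Fin 2)

instance (G : Type) [Group G] (i : Bool) : Group (Fam G i) :=
  match i with
  | true => inferInstanceAs (Group G)
  | false => inferInstanceAs (Group (FreeGroup (Fin 2)))

/-- the two embeddings of the amalgamated subgroup -/
def fam {G : Type} [Group G] (x u : G) : ∀ i : Bool, FreeGroup (Fin 2) →* Fam G i
  | true => ps x u
  | false => ta

/-- the first embedding -/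
def jG {G : Type} [Group G] (x u : G) : G →* Monoid.PushoutI (fam x u) :=
  (Monoid.PushoutI.of (φ := fam x u) true : Fam G true →* Monoid.PushoutI (fam x u))

/-- the second embedding -/
def jF {G : Type} [Group G] (x u : G) : FreeGroup (Fin 2) →* Monoid.PushoutI (fam x u) :=
  (Monoid.PushoutI.of (φ := fam x u) false : Fam G false →* Monoid.PushoutI (fam x u))

theorem j_eq {G : Type} [Group G] (x u : G) (z : FreeGroup (Fin 2)) :
    jG x u (ps x u z) = jF x u (ta z) :=
  (Monoid.PushoutI.of_apply_eq_base (fam x u) true z).trans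
    (Monoid.PushoutI.of_apply_eq_base (fam x u) false z).symm

/-- a group with an injective homomorphism from `G` and an element `t` with
`t t x t⁻¹ u = 1` -/
theorem exists_amalgam {G : Type} [Group G] (ρ : G →* FreeGroup (Fin 2)) {x u : G}
    (hx : ρ x = FreeGroup.of 0) (hu : ρ u = FreeGroup.of 1) :
    ∃ (P : Type) (_ : Group P) (j : G →* P) (t : P), Function.Injective j ∧
      t * t * j x * t⁻¹ * j u = 1 := by
  refine ⟨Monoid.PushoutI (fam x u), inferInstance, jG x u, jF x u (FreeGroup.of 1), ?_, ?_⟩
  · have h : ∀ i, Function.Injective (fam x u i) := by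
      intro i
      cases i with
      | true => exact ps_inj ρ hx hu
      | false => exact ta_inj
    exact Monoid.PushoutI.of_injective h true
  · have h0 := j_eq x u (FreeGroup.of 0)
    have h1 := j_eq x u (FreeGroup.of 1)
    have e0 : ps x u (FreeGroup.of 0) = x := by rw [ps, FreeGroup.lift_apply_of]; rfl
    have e1 : ps x u (FreeGroup.of 1) = u := by rw [ps, FreeGroup.lift_apply_of]; rfl
    rw [e0, ta_zero] at h0
    rw [e1, ta_one] at h1
    rw [h0, h1]
    simp only [map_mul, map_inv]
    group

end Pool.Agent.Y870.KV
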